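import Mathlib

/-!
L-hitting numbers of initial segments of the 2-3 grid: the identity f n = h n fails at n = 45.
-/

namespace Pool.Agent.Results.MP_2eb2b4_co.Counterexample

/-- The set A of all numbers 2^i 3^j with i, j ≥ 0. -/
def A : Set ℕ := {m | ∃ i j : ℕ, m = 2 ^ i * 3 ^ j}

/-- The n-th element a n (n ≥ 1) of A in increasing order: a 1 = 1, a 2 = 2, a 3 = 3, a 4 = 4, a 5 = 6. -/
noncomputable def a (n : ℕ) : ℕ := Nat.nth (fun m => m ∈ A) (n - 1)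

/-- The initial segment A n = {a 1, ..., a n}. -/
noncomputable def An (n : ℕ) : Finset ℕ := (Finset.Icc 1 n).image a

/-- H meets every L-configuration {2^i 3^j, 2^(i+1) 3^j, 2^i 3^(j+1)} contained in A n. -/
def Hits (n : ℕ) (H : Finset ℕ) : Prop :=
  ∀ i j : ℕ, 2 ^ i * 3 ^ j ∈ An n → 2 ^ (i + 1) * 3 ^ j ∈ An n → 2 ^ i * 3 ^ (j + 1) ∈ An n →
    (2 ^ i * 3 ^ j ∈ H ∨ 2 ^ (i + 1) * 3 ^ j ∈ H ∨ 2 ^ i * 3 ^ (j + 1) ∈ H)

/-- The L-hitting number: the least size of a set H ⊆ A n meeting every L-configuration in A n. -/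
noncomputable def f (n : ℕ) : ℕ := sInf {c | ∃ H : Finset ℕ, H ⊆ An n ∧ Hits n H ∧ H.card = c}

/-- B n k = {2^i 3^j ∈ A n : i - j ≡ k (mod 3)}. -/
def B (n k : ℕ) : Set ℕ :=
  {m | m ∈ An n ∧ ∃ i j : ℕ, m = 2 ^ i * 3 ^ j ∧ (i : ℤ) - (j : ℤ) ≡ (k : ℤ) [ZMOD 3]}

/-- Bt n k = the powers of two 2^i ∈ A n with i ≥ 1, i ≡ k (mod 3) and 2^(i-1) * 3 ∉ A n. -/
def Bt (n k : ℕ) : Set ℕ :=
  {m | m ∈ An n ∧ ∃ i : ℕ, 1 ≤ i ∧ m = 2 ^ i ∧ i ≡ k [MOD 3] ∧ 2 ^ (i - 1) * 3 ∉ An n}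

/-- h n = min over k ∈ {0, 1, 2} of |B n k| - |Bt n k| (computed in the integers). -/
noncomputable def h (n : ℕ) : ℤ :=
  min (((B n 0).ncard : ℤ) - (Bt n 0).ncard)
    (min (((B n 1).ncard : ℤ) - (Bt n 1).ncard) (((B n 2).ncard : ℤ) - (Bt n 2).ncard))

/-- The explicit list of the first 45 elements of A. -/
def L45 : Finset ℕ :=
  {1, 2, 3, 4, 6, 8, 9, 12, 16, 18, 24, 27, 32, 36, 48, 54, 64, 72, 81, 96, 108, 128, 144, 162,
    192, 216, 243, 256, 288, 324, 384, 432, 486, 512, 576, 648, 729, 768, 864, 972, 1024, 1152,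
    1296, 1458, 1536}

lemma bounds {i j : ℕ} (hm : 2 ^ i * 3 ^ j ≤ 1536) : i ≤ 10 ∧ j ≤ 6 := by
  constructor
  · by_contra hi
    have h1 : 2 ^ 11 ≤ 2 ^ i := Nat.pow_le_pow_right (by norm_num) (by omega)
    have h2 : 1 ≤ 3 ^ j := Nat.one_le_pow _ _ (by norm_num)
    nlinarith
  · by_contra hj
    have h1 : 3 ^ 7 ≤ 3 ^ j := Nat.pow_le_pow_right (by norm_num) (by omega)
    have h2 : 1 ≤ 2 ^ i := Nat.one_le_pow _ _ (by norm_num)
    nlinarith

lemma mem_L45 (m : ℕ) : m ∈ L45 ↔ m ∈ A ∧ m ≤ 1536 := by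
  constructor
  · intro hm
    have key : ∀ m ∈ L45, (∃ i ∈ Finset.range 11, ∃ j ∈ Finset.range 7, m = 2 ^ i * 3 ^ j) ∧
        m ≤ 1536 := by decide +kernel
    obtain ⟨⟨i, -, j, -, hij⟩, h2⟩ := key m hm
    exact ⟨⟨i, j, hij⟩, h2⟩
  · rintro ⟨⟨i, j, rfl⟩, h2⟩
    obtain ⟨hi, hj⟩ := bounds h2
    have key : ∀ i ∈ Finset.range 11, ∀ j ∈ Finset.range 7, 2 ^ i * 3 ^ j ≤ 1536 →
        2 ^ i * 3 ^ j ∈ L45 := by decide +kernel
    exact key i (Finset.mem_range.2 (by omega)) j (Finset.mem_range.2 (by omega)) h2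

lemma A_infinite : (Set.ofPred fun m => m ∈ A).Infinite := by
  apply Set.infinite_of_injective_forall_mem (f := fun i : ℕ => 2 ^ i)
  · exact Nat.pow_right_injective (le_refl 2)
  · intro i
    exact ⟨i, 0, by simp⟩

lemma count_1537 : @Nat.count (fun m => m ∈ A) (Classical.decPred _) 1537 = 45 := by
  classical
  rw [Nat.count_eq_card_filter_range]
  have : (Finset.range 1537).filter (fun m => m ∈ A) = L45 := by
    ext m
    rw [mem_L45, Finset.mem_filter, Finset.mem_range]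
    constructor
    · rintro ⟨h1, h2⟩; exact ⟨h2, by omega⟩
    · rintro ⟨h1, h2⟩; exact ⟨by omega, h1⟩
  have h45 : L45.card = 45 := by decide +kernel
  rw [← h45, ← this]

lemma An_45 : An 45 = L45 := by
  classical
  ext m
  rw [mem_L45]
  simp only [An, Finset.mem_image, Finset.mem_Icc, a]
  constructor
  · rintro ⟨n, ⟨h1, h2⟩, rfl⟩
    refine ⟨Nat.nth_mem_of_infinite A_infinite _, ?_⟩
    have : Nat.nth (fun m => m ∈ A) (n - 1) < 1537 := by
      apply Nat.nth_lt_of_lt_count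
      have := count_1537
      convert (show n - 1 < 45 by omega)
    omega
  · rintro ⟨h1, h2⟩
    refine ⟨Nat.count (fun m => m ∈ A) m + 1, ⟨by omega, ?_⟩, ?_⟩
    · have h3 : Nat.count (fun m => m ∈ A) (m + 1) ≤ Nat.count (fun m => m ∈ A) 1537 :=
        Nat.count_monotone _ (by omega)
      have h4 : Nat.count (fun m => m ∈ A) (m + 1) = Nat.count (fun m => m ∈ A) m + 1 := by
        rw [Nat.count_succ, if_pos h1]
      have h5 : Nat.count (fun m => m ∈ A) 1537 = 45 := by convert count_1537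
      omega
    · simp only [Nat.add_sub_cancel]
      exact Nat.nth_count h1

/-- A hitting set with 14 elements. -/
def H14 : Finset ℕ := {3, 4, 18, 24, 32, 81, 108, 144, 192, 384, 486, 512, 648, 864}

lemma f_45_le : f 45 ≤ 14 := by
  apply Nat.sInf_le
  refine ⟨H14, ?_, ?_, by decide +kernel⟩
  · rw [An_45]; decide +kernel
  · intro i j h1 h2 h3
    rw [An_45] at h1 h2 h3
    obtain ⟨hi, hj⟩ := bounds ((mem_L45 _).1 h1).2
    have key : ∀ i ∈ Finset.range 11, ∀ j ∈ Finset.range 7, 2 ^ (i + 1) * 3 ^ j ∈ L45 →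
        2 ^ i * 3 ^ (j + 1) ∈ L45 →
        (2 ^ i * 3 ^ j ∈ H14 ∨ 2 ^ (i + 1) * 3 ^ j ∈ H14 ∨ 2 ^ i * 3 ^ (j + 1) ∈ H14) := by
      decide +kernel
    exact key i (Finset.mem_range.2 (by omega)) j (Finset.mem_range.2 (by omega)) h2 h3

lemma Bt_45 (k : ℕ) : Bt 45 k = ∅ := by
  ext m
  simp only [Bt, Set.mem_ofPred_eq, Set.mem_empty_iff_false, iff_false]
  rintro ⟨h1, i, hi, rfl, -, h3⟩
  rw [An_45] at h1 h3
  have hb : i ≤ 10 := (bounds (j := 0) (by simpa using ((mem_L45 _).1 h1).2)).1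
  have key : ∀ i ∈ Finset.range 11, 2 ^ (i - 1) * 3 ∈ L45 := by decide +kernel
  exact h3 (key i (Finset.mem_range.2 (by omega)))

/-- Bounded, decidable description of B 45 k. -/
def Bf (k : ℕ) : Finset ℕ :=
  L45.filter (fun m => ∃ i ∈ Finset.range 11, ∃ j ∈ Finset.range 7,
    m = 2 ^ i * 3 ^ j ∧ (i + 2 * j) % 3 = k % 3)

lemma B_45 (k : ℕ) : B 45 k = (Bf k : Set ℕ) := by
  ext m
  simp only [B, Bf, An_45, Set.mem_ofPred_eq, Finset.coe_filter, Finset.mem_range]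
  constructor
  · rintro ⟨h1, i, j, rfl, h3⟩
    obtain ⟨hi, hj⟩ := bounds ((mem_L45 _).1 h1).2
    refine ⟨h1, i, by omega, j, by omega, rfl, ?_⟩
    unfold Int.ModEq at h3
    omega
  · rintro ⟨h1, i, -, j, -, rfl, h3⟩
    refine ⟨h1, i, j, rfl, ?_⟩
    unfold Int.ModEq
    omega

lemma h_45 : h 45 = 15 := by
  have h0 : (Bf 0).card = 15 := by decide +kernel
  have h1 : (Bf 1).card = 15 := by decide +kernel
  have h2 : (Bf 2).card = 15 := by decide +kernel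
  simp only [h, B_45, Bt_45, Set.ncard_coe_finset, Set.ncard_empty, h0, h1, h2]
  norm_num

theorem result : ∃ n : ℕ, 1 ≤ n ∧ (f n : ℤ) < h n := by
  refine ⟨45, by norm_num, ?_⟩
  rw [h_45]
  have := f_45_le
  omega

end Pool.Agent.Results.MP_2eb2b4_co.Counterexample
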